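import Pool.Agent.Lib.MP_bb9e9d_lc.Core.CutC

/-! # The small model property -/

namespace Pool.Agent.Lib.MP_bb9e9d_lc

variable {T O Γ ι κ F Λ : Type} [Fintype T] [Fintype O] [Fintype Γ] [Fintype ι] [Fintype κ]
  [Fintype F] [Fintype Λ]

omit [Fintype T] in
private lemma prt_le_self {n : T → ℕ} {N j : ℕ} (hj : j < N) (t : T) : prt n N j t ≤ n t := by
  unfold prt
  exact Nat.div_le_of_le_mul (Nat.mul_le_mul_right _ hj.le)

/-- The small model property.  Proof: strong induction on `∑ n`.  If all `n t ≤ bound`, take `n`.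
Otherwise let `N = n t₀ > bound` be the maximum of `n`.  The map `i ↦ (ℓ ↦ {w | unbx w ∈ Reach_ℓ
(prt n N i)}, k ↦ card T + ∑ prt t * iv t k)` from `Fin N` to `St` is not injective (`card_St`,
pigeonhole); so there are `i < j < N` with equal states.  `n' = prt i + (n - prt j)`: `n' t ≤ n t`
since `prt i ≤ prt j ≤ n`; `n' t ≠ 0` if `n t ≠ 0` by `prt_lt`; balanced since `∑ (prt i) iv =
∑ (prt j) iv` (equal states, `iv_small` makes the second component injective on these values);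
`none` by `cut_none`.  `n' t₀ = N - (j - i) < n t₀` (as `i * N / N = i`), so `∑ n' < ∑ n`; apply the
induction hypothesis. -/
theorem small_model [AddCommMonoid F] (R : Λ → RP T O Γ ((ι → ℤ) × F)) (hR : ∀ ℓ, (R ℓ).Small)
    (goal : Λ → Set ((ι → ℤ) × F)) (hgoal : ∀ ℓ, ∀ u ∈ goal ℓ, u.1 = 0)
    (iv : T → κ → ℤ) (hiv : ∀ t k, |iv t k| ≤ 1) (n : T → ℕ) (hn : Good R goal iv n) :
    ∃ n' : T → ℕ, Good R goal iv n' ∧ (∀ t, n' t ≤ n t) ∧ (∀ t, n t ≠ 0 → n' t ≠ 0) ∧
      ∀ t, n' t ≤ bound T O Γ ι κ F Λ := by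
  classical
  obtain ⟨S, hS⟩ : ∃ S, S = ∑ t, n t := ⟨_, rfl⟩
  induction S using Nat.strong_induction_on generalizing n with
  | _ S ih =>
  by_cases hb : ∀ t, n t ≤ bound T O Γ ι κ F Λ
  · exact ⟨n, hn, fun t => le_rfl, fun t h => h, hb⟩
  push Not at hb
  obtain ⟨t1, ht1⟩ := hb
  obtain ⟨t0, -, ht0⟩ := Finset.exists_max_image Finset.univ n ⟨t1, Finset.mem_univ _⟩
  obtain ⟨N, hN⟩ : ∃ N, N = n t0 := ⟨_, rfl⟩
  have hNb : bound T O Γ ι κ F Λ < N := by
    rw [hN]
    exact ht1.trans_le (ht0 t1 (Finset.mem_univ _))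
  have hN0 : 0 < N := (Nat.zero_le _).trans_lt hNb
  have hsm : ∀ i k, |∑ t, (prt n N i t : ℤ) * iv t k| ≤ Fintype.card T := fun i k =>
    iv_small iv hiv (hn.bal k) hN0 i
  have hlt0 : ∀ i k, ((Fintype.card T : ℤ) + ∑ t, (prt n N i t : ℤ) * iv t k).toNat <
      2 * Fintype.card T + 1 := by
    intro i k
    have := abs_le.1 (hsm i k)
    omega
  obtain ⟨f, hf⟩ : ∃ f : Fin N → St T O Γ ι κ F Λ, f = fun (i : Fin N) =>
      ((fun ℓ => {w : Bx (cst T O Γ 2) ι F | unbx w ∈ (R ℓ).Reach (prt n N (i : ℕ))}),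
        (fun k => (⟨_, hlt0 (i : ℕ) k⟩ : Fin (2 * Fintype.card T + 1)))) := ⟨_, rfl⟩
  have hninj : ¬ Function.Injective f := by
    intro hinj
    have h1 := Nat.card_le_card_of_injective f hinj
    rw [card_St, Nat.card_fin] at h1
    omega
  have hij : ∃ i j : ℕ, i < j ∧ j < N ∧ (∀ ℓ, {w : Bx (cst T O Γ 2) ι F | unbx w ∈
      (R ℓ).Reach (prt n N i)} = {w | unbx w ∈ (R ℓ).Reach (prt n N j)}) ∧
      ∀ k, ∑ t, (prt n N i t : ℤ) * iv t k = ∑ t, (prt n N j t : ℤ) * iv t k := by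
    have hgen : ∀ a b : Fin N, f a = f b → (∀ ℓ, {w : Bx (cst T O Γ 2) ι F | unbx w ∈
        (R ℓ).Reach (prt n N a)} = {w | unbx w ∈ (R ℓ).Reach (prt n N b)}) ∧
        ∀ k, ∑ t, (prt n N a t : ℤ) * iv t k = ∑ t, (prt n N b t : ℤ) * iv t k := by
      intro a b hab
      rw [hf] at hab
      have e1 := congrArg Prod.fst hab
      have e2 := congrArg Prod.snd hab
      refine ⟨fun ℓ => congrFun e1 ℓ, fun k => ?_⟩
      have e3 := congrArg Fin.val (congrFun e2 k)
      dsimp only at e3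
      have b1 := abs_le.1 (hsm a k)
      have b2 := abs_le.1 (hsm b k)
      omega
    simp only [Function.Injective, not_forall] at hninj
    obtain ⟨a, b, hab, hne⟩ := hninj
    rcases lt_or_gt_of_ne hne with h | h
    · exact ⟨a, b, h, b.2, hgen a b hab⟩
    · exact ⟨b, a, h, a.2, hgen b a hab.symm⟩
  obtain ⟨i, j, hlt, hj, hst, hsum⟩ := hij
  obtain ⟨n', hn'⟩ : ∃ n' : T → ℕ, n' = fun t => prt n N i t + (n t - prt n N j t) := ⟨_, rfl⟩
  have hle1 : ∀ t, prt n N i t ≤ prt n N j t := fun t =>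
    Nat.div_le_div_right (Nat.mul_le_mul_right _ hlt.le)
  have hle : ∀ t, n' t ≤ n t := by
    intro t
    have h1 := hle1 t
    have h2 := prt_le_self (n := n) hj t
    rw [hn']
    dsimp only
    omega
  have hne : ∀ t, n t ≠ 0 → n' t ≠ 0 := by
    intro t ht
    have h1 : prt n N j t < n t := prt_lt hj (Nat.pos_of_ne_zero ht)
    rw [hn']
    dsimp only
    omega
  have hgood : Good R goal iv n' := by
    refine ⟨fun k => ?_, fun ℓ => ?_⟩
    · have e1 : ∀ t, (n' t : ℤ) * iv t k = (prt n N i t : ℤ) * iv t k + (n t : ℤ) * iv t k -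
          (prt n N j t : ℤ) * iv t k := by
        intro t
        have h2 := prt_le_self (n := n) hj t
        rw [hn']
        push_cast [Nat.cast_sub h2]
        ring
      rw [Finset.sum_congr rfl (fun t _ => e1 t), Finset.sum_sub_distrib, Finset.sum_add_distrib,
        hn.bal k, hsum k]
      ring
    · rw [hn']
      exact cut_none (R ℓ) (hR ℓ) (hgoal ℓ) (hn.none ℓ) hlt hj (hst ℓ)
  have hlt' : ∑ t, n' t < S := by
    rw [hS]
    apply Finset.sum_lt_sum (fun t _ => hle t)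
    refine ⟨t0, Finset.mem_univ _, ?_⟩
    have e1 : prt n N i t0 = i := by
      unfold prt
      rw [← hN]
      exact Nat.mul_div_cancel i hN0
    have e2 : prt n N j t0 = j := by
      unfold prt
      rw [← hN]
      exact Nat.mul_div_cancel j hN0
    rw [hn']
    dsimp only
    rw [e1, e2, ← hN]
    omega
  obtain ⟨n'', g1, g2, g3, g4⟩ := ih _ hlt' n' hgood rfl
  exact ⟨n'', g1, fun t => (g2 t).trans (hle t), fun t ht => g3 t (hne t ht), g4⟩

end Pool.Agent.Lib.MP_bb9e9d_lc
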