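import Mathlib

/-! # Apportionment -/

namespace Pool.Agent.Lib.MP_bb9e9d_lc

/-- Fill up to a given total below given capacities.
Proof: induction on `δ`: if `e` has sum `δ < ∑ cap` then some `e o < cap o`; increase it. -/
theorem exists_fill {O : Type} [Fintype O] (cap : O → ℕ) (δ : ℕ) (h : δ ≤ ∑ o, cap o) :
    ∃ e : O → ℕ, (∀ o, e o ≤ cap o) ∧ ∑ o, e o = δ := by
  classical
  induction δ with
  | zero => exact ⟨fun _ => 0, fun _ => Nat.zero_le _, by simp⟩
  | succ n ih =>
    obtain ⟨e, he, hs⟩ := ih (by omega)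
    have hex : ∃ o, e o < cap o := by
      by_contra hcon
      push Not at hcon
      have h2 : ∑ o, cap o ≤ ∑ o, e o := Finset.sum_le_sum (fun o _ => hcon o)
      omega
    obtain ⟨o, ho⟩ := hex
    refine ⟨fun o' => e o' + (if o' = o then 1 else 0), ?_, ?_⟩
    · intro o'
      by_cases h' : o' = o
      · subst h'
        simp
        omega
      · simp [h', he o']
    · rw [Finset.sum_add_distrib, hs]
      simp

/-- Apportionment with ratio `p / q`.
Proof: `a0 o = p * a o / q` (so `q * a0 o ≤ p * a o < q * a0 o + q` and `a0 o ≤ a o`), `S = ∑ a0`,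
`A = ∑ a`.  Then `p * A - q * card O ≤ q * S ≤ p * A`.  If `S ≤ m1`: `δ = m1 - S ≤ ∑ (a - a0)`, and
`q * δ ≤ c * q + q * card O`, so `δ ≤ c + card O`; take `e` from `exists_fill` with capacities
`a o - a0 o` and `a1 = a0 + e`.  If `m1 < S`: `δ = S - m1`, `q * δ ≤ c * q`, `δ ≤ c`; take `e` with
capacities `a0 o` and `a1 = a0 - e`.  In both cases `e o ≤ ∑ e = δ`. -/
theorem apportion {O : Type} [Fintype O] (a : O → ℕ) {m1 p q c : ℕ} (hq : 0 < q) (hpq : p ≤ q)
    (h1 : m1 ≤ ∑ o, a o) (hc : |(q : ℤ) * m1 - p * (∑ o, a o : ℕ)| ≤ c * q) :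
    ∃ a1 : O → ℕ, (∀ o, a1 o ≤ a o) ∧ ∑ o, a1 o = m1 ∧
      ∀ o, |(q : ℤ) * a1 o - p * a o| ≤ q * (Fintype.card O + c + 1 : ℕ) := by
  classical
  set A : ℕ := ∑ o, a o with hA
  let a0 : O → ℕ := fun o => p * a o / q
  have hlow : ∀ o, q * a0 o ≤ p * a o := fun o => Nat.mul_div_le _ _
  have hupp : ∀ o, p * a o ≤ q * a0 o + q := fun o => by
    have h2 := Nat.div_add_mod (p * a o) q
    have h3 := Nat.mod_lt (p * a o) hq
    show p * a o ≤ q * (p * a o / q) + q
    omega
  have hle : ∀ o, a0 o ≤ a o := fun o => by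
    apply Nat.div_le_of_le_mul
    exact Nat.mul_le_mul_right _ hpq
  set S : ℕ := ∑ o, a0 o with hS
  have hS1 : q * S ≤ p * A := by
    rw [hS, hA, Finset.mul_sum, Finset.mul_sum]
    exact Finset.sum_le_sum fun o _ => hlow o
  have hS2 : p * A ≤ q * S + q * Fintype.card O := by
    have h2 : ∑ o, p * a o ≤ ∑ o, (q * a0 o + q) := Finset.sum_le_sum fun o _ => hupp o
    rw [Finset.sum_add_distrib, ← Finset.mul_sum, ← Finset.mul_sum] at h2
    simp only [Finset.sum_const, Finset.card_univ, smul_eq_mul] at h2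
    rw [hS, hA]
    linarith [Nat.mul_comm q (Fintype.card O)]
  have hSA : S ≤ A := Finset.sum_le_sum fun o _ => hle o
  rw [abs_le] at hc
  obtain ⟨hc1, hc2⟩ := hc
  have hqz : (0 : ℤ) < q := by exact_mod_cast hq
  have hS1z : (q : ℤ) * S ≤ p * A := by exact_mod_cast hS1
  have hS2z : (p : ℤ) * A ≤ q * S + q * Fintype.card O := by exact_mod_cast hS2
  rcases le_or_gt S m1 with hcase | hcase
  · -- add
    have hcap : ∑ o, (a o - a0 o) = A - S := by
      rw [Finset.sum_tsub_distrib _ (fun o _ => hle o)]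
    obtain ⟨e, he, hes⟩ := exists_fill (fun o => a o - a0 o) (m1 - S) (by rw [hcap]; omega)
    have hδ : ((m1 - S : ℕ) : ℤ) ≤ c + Fintype.card O := by
      have h3 : ((m1 - S : ℕ) : ℤ) = m1 - S := by omega
      rw [h3]
      have h4 : (q : ℤ) * (m1 - S) ≤ q * (c + Fintype.card O) := by nlinarith
      exact le_of_mul_le_mul_left h4 hqz
    refine ⟨fun o => a0 o + e o, ?_, ?_, ?_⟩
    · intro o
      have h21 : e o ≤ a o - a0 o := he o
      have h22 := hle o
      show a0 o + e o ≤ a o
      omega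
    · rw [Finset.sum_add_distrib, hes, ← hS]
      omega
    · intro o
      have h5 : e o ≤ m1 - S := by
        rw [← hes]
        exact Finset.single_le_sum (fun i _ => Nat.zero_le (e i)) (Finset.mem_univ o)
      have h5z : (e o : ℤ) ≤ c + Fintype.card O := le_trans (by exact_mod_cast h5) hδ
      have h6 : (q : ℤ) * a0 o ≤ p * a o := by exact_mod_cast hlow o
      have h7 : (p : ℤ) * a o ≤ q * a0 o + q := by exact_mod_cast hupp o
      have h8 : (0 : ℤ) ≤ e o := by positivity
      push_cast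
      have h9 : (q : ℤ) * e o ≤ q * (c + Fintype.card O) := mul_le_mul_of_nonneg_left h5z hqz.le
      have h10 : (0 : ℤ) ≤ q * e o := by positivity
      have h11 : (0 : ℤ) ≤ q * c := by positivity
      have h12 : (0 : ℤ) ≤ q * Fintype.card O := by positivity
      rw [abs_le]
      constructor <;> nlinarith
  · -- subtract
    obtain ⟨e, he, hes⟩ := exists_fill a0 (S - m1) (by rw [← hS]; omega)
    have hδ : ((S - m1 : ℕ) : ℤ) ≤ c := by
      have h3 : ((S - m1 : ℕ) : ℤ) = S - m1 := by omega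
      rw [h3]
      have h4 : (q : ℤ) * (S - m1) ≤ q * c := by nlinarith
      exact le_of_mul_le_mul_left h4 hqz
    refine ⟨fun o => a0 o - e o, ?_, ?_, ?_⟩
    · intro o
      have := hle o
      show a0 o - e o ≤ a o
      omega
    · rw [Finset.sum_tsub_distrib _ (fun o _ => he o), hes, ← hS]
      omega
    · intro o
      have h5 : e o ≤ S - m1 := by
        rw [← hes]
        exact Finset.single_le_sum (fun i _ => Nat.zero_le (e i)) (Finset.mem_univ o)
      have h5z : (e o : ℤ) ≤ c := le_trans (by exact_mod_cast h5) hδ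
      have h6 : (q : ℤ) * a0 o ≤ p * a o := by exact_mod_cast hlow o
      have h7 : (p : ℤ) * a o ≤ q * a0 o + q := by exact_mod_cast hupp o
      have h8 : (0 : ℤ) ≤ e o := by positivity
      have h13 : ((a0 o - e o : ℕ) : ℤ) = a0 o - e o := by
        have := he o
        push_cast [Nat.cast_sub this]
        ring
      rw [h13]
      push_cast
      have h9 : (q : ℤ) * e o ≤ q * c := mul_le_mul_of_nonneg_left h5z hqz.le
      have h10 : (0 : ℤ) ≤ q * e o := by positivity
      have h11 : (0 : ℤ) ≤ q * c := by positivity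
      have h12 : (0 : ℤ) ≤ q * Fintype.card O := by positivity
      rw [abs_le]
      constructor <;> nlinarith

end Pool.Agent.Lib.MP_bb9e9d_lc
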