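import Mathlib

/-!
# Reachability problems: definitions

`RP T O Γ V`: every element of kind `t : T` chooses an option `o : O` with `ok t o` and contributes
the vector `val t o`; the free generators `γ : Γ` with `gok γ` may be added arbitrarily often.
`R.Reach m` is the set of the sums that are reachable when there are `m t` elements of kind `t`.
The vectors live in `(ι → ℤ) × F` where `F` is a finite monoid of flags.
-/

namespace Pool.Agent.Lib.MP_bb9e9d_lc

/-- Truth values, with the operation or as addition. -/
structure Fl : Type where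
  /-- the truth value -/
  b : Bool
  deriving DecidableEq, Fintype

instance : Add Fl := ⟨fun x y => ⟨x.b || y.b⟩⟩
instance : Zero Fl := ⟨⟨false⟩⟩

@[ext] lemma Fl.ext' {x y : Fl} (h : x.b = y.b) : x = y := by
  cases x; cases y; simp_all

instance : AddCommMonoid Fl where
  add_assoc x y z := Fl.ext' (Bool.or_assoc _ _ _)
  zero_add x := Fl.ext' (Bool.false_or _)
  add_zero x := Fl.ext' (Bool.or_false _)
  add_comm x y := Fl.ext' (Bool.or_comm _ _)
  nsmul := nsmulRec

@[simp] lemma Fl.b_add (x y : Fl) : (x + y).b = (x.b || y.b) := rfl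
@[simp] lemma Fl.b_zero : (0 : Fl).b = false := rfl

lemma Fl.b_nsmul (n : ℕ) (x : Fl) : (n • x).b = (decide (n ≠ 0) && x.b) := by
  induction n with
  | zero => simp
  | succ n ih =>
    rw [succ_nsmul, Fl.b_add, ih]
    cases x.b <;> simp

lemma Fl.b_sum {α : Type*} (s : Finset α) (f : α → Fl) :
    (∑ a ∈ s, f a).b = true ↔ ∃ a ∈ s, (f a).b = true := by
  classical
  induction s using Finset.induction_on with
  | empty => simp
  | insert a s ha ih => rw [Finset.sum_insert ha, Fl.b_add, Bool.or_eq_true, ih]; simp

/-- A reachability problem. -/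
structure RP (T O Γ V : Type) : Type where
  /-- the allowed options -/
  ok : T → O → Prop
  /-- the contribution of an option -/
  val : T → O → V
  /-- the allowed free generators -/
  gok : Γ → Prop
  /-- the value of a free generator -/
  gval : Γ → V

variable {T O Γ ι F : Type} [Fintype T] [Fintype O] [Fintype Γ]

/-- The set of reachable vectors for `m t` elements of kind `t`. -/
def RP.Reach {V : Type} [AddCommMonoid V] (R : RP T O Γ V) (m : T → ℕ) : Set V :=
  {u | ∃ (a : T → O → ℕ) (b : Γ → ℕ), (∀ t o, a t o ≠ 0 → R.ok t o) ∧ (∀ t, ∑ o, a t o = m t) ∧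
    (∀ γ, b γ ≠ 0 → R.gok γ) ∧ u = ∑ t, ∑ o, a t o • R.val t o + ∑ γ, b γ • R.gval γ}

/-- All entries of the contributions are at most `1` in absolute value. -/
structure RP.Small (R : RP T O Γ ((ι → ℤ) × F)) : Prop where
  val : ∀ t o i, |(R.val t o).1 i| ≤ 1
  gval : ∀ γ i, |(R.gval γ).1 i| ≤ 1

/-- The error bound in the splitting lemma. -/
def cst (T O Γ : Type) [Fintype T] [Fintype O] [Fintype Γ] (c : ℕ) : ℕ :=
  Fintype.card T * Fintype.card O * (Fintype.card O + c + 1) + Fintype.card Γ

/-- All entries of the vector `v` are at most `r` in absolute value. -/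
def Bd (r : ℕ) (v : (ι → ℤ) × F) : Prop := ∀ i, |v.1 i| ≤ r

end Pool.Agent.Lib.MP_bb9e9d_lc
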