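import Pool.Agent.Lib.MP_bb9e9d_lc.Core.CutDefs

/-! # Cutting: the number of states -/

namespace Pool.Agent.Lib.MP_bb9e9d_lc

variable {T O Γ ι κ F Λ : Type} [Fintype T] [Fintype O] [Fintype Γ] [Fintype ι] [Fintype κ]
  [Fintype F] [Fintype Λ]

/-- Proof: `Nat.card` of products, functions and sets. -/
theorem card_St : Nat.card (St T O Γ ι κ F Λ) = bound T O Γ ι κ F Λ := by
  classical
  unfold St bound Bx
  rw [Nat.card_prod, Nat.card_fun, Nat.card_fun]
  congr 1
  · rw [Nat.card_eq_fintype_card (α := Λ), Nat.card_eq_fintype_card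
      (α := Set ((ι → Fin (2 * cst T O Γ 2 + 1)) × F)), Fintype.card_set, Fintype.card_prod,
      Fintype.card_fun, Fintype.card_fin]
  · rw [Nat.card_eq_fintype_card, Nat.card_eq_fintype_card, Fintype.card_fin]

instance : Finite (St T O Γ ι κ F Λ) := by
  unfold St Bx
  infer_instance

end Pool.Agent.Lib.MP_bb9e9d_lc
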