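import Pool.Agent.Lib.MP_bb9e9d_lc.Core.CutDefs

/-! # Cutting: arithmetic -/

namespace Pool.Agent.Lib.MP_bb9e9d_lc

variable {T O Γ ι κ F Λ : Type} [Fintype T] [Fintype O] [Fintype Γ] [Fintype ι] [Fintype κ]
  [Fintype F] [Fintype Λ]

/-- `j * n / N ≤ n` when `j ≤ N`. -/
private theorem cutB_div_le {n N j : ℕ} (hj : j ≤ N) : j * n / N ≤ n := by
  rcases Nat.eq_zero_or_pos N with h | h
  · subst h; simp
  · exact Nat.div_le_of_le_mul (Nat.mul_le_mul_right n hj)

/-- The arithmetic of one cut.  Proof: `i * n t = N * prt i t + e`, `0 ≤ e < N`, similarly for `j`;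
`n' t = n t - prt j t + prt i t`.  Then `(N - j + i) * prt i t - i * n' t`, multiplied by `N`, is
`(N - j + i) * (i * n t - e) - i * (N * n t - (j * n t - e') + (i * n t - e))`
`= -(N - j + i) * e - i * e' + i * e`, whose absolute value is at most
`(N - j + i) * N + i * N ≤ 2 * (N - j + i) * N` (as `i ≤ N - j + i`). -/
theorem cut_arith {n N i j : ℕ} (hij : i < j) (hj : j < N) :
    |((N - j + i : ℕ) : ℤ) * (i * n / N : ℕ) - i * ((i * n / N) + (n - j * n / N) : ℕ)| ≤
      2 * ((N - j + i : ℕ) : ℤ) := by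
  have hN : 0 < N := by omega
  have hle : j * n / N ≤ n := cutB_div_le hj.le
  have e1 := Nat.div_add_mod (i * n) N
  have e2 := Nat.div_add_mod (j * n) N
  have m1 := Nat.mod_lt (i * n) hN
  have m2 := Nat.mod_lt (j * n) hN
  generalize i * n / N = a at *
  generalize j * n / N = b at *
  generalize i * n % N = e at *
  generalize j * n % N = e' at *
  have hjN : j ≤ N := hj.le
  obtain ⟨d, rfl⟩ := Nat.exists_eq_add_of_le hjN
  obtain ⟨c, rfl⟩ := Nat.exists_eq_add_of_le hle
  have h1 : j + d - j + i = d + i := by omega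
  have h2 : b + c - b = c := by omega
  rw [h1, h2]
  have hNz : (0 : ℤ) < ((j + d : ℕ) : ℤ) := by exact_mod_cast hN
  zify at e1 e2 m1 m2 ⊢
  have he0 : (0 : ℤ) ≤ e := by positivity
  have he0' : (0 : ℤ) ≤ e' := by positivity
  have hi0 : (0 : ℤ) ≤ i := by positivity
  have hd0 : (0 : ℤ) ≤ d := by positivity
  have hNz' : (0 : ℤ) < (j : ℤ) + d := by exact_mod_cast hNz
  have key : ((j : ℤ) + d) * (((d : ℤ) + i) * a - i * (a + c)) =
      -((d : ℤ) + i) * e - i * e' + i * e := by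
    have f1 : ((j : ℤ) + d) * a = i * (b + c) - e := by linarith
    have f2 : ((j : ℤ) + d) * b = j * (b + c) - e' := by linarith
    have : ((j : ℤ) + d) * (((d : ℤ) + i) * a - i * (a + c)) =
        ((d : ℤ) + i) * (((j : ℤ) + d) * a) - i * (((j : ℤ) + d) * a) - i * ((j : ℤ) + d) * (b + c)
          + i * (((j : ℤ) + d) * b) := by ring
    rw [this, f1, f2]
    ring
  rw [abs_le]
  constructor
  · by_contra hcon
    push Not at hcon
    have hm := mul_lt_mul_of_pos_left hcon hNz'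
    rw [key] at hm
    nlinarith [mul_nonneg hi0 he0, mul_nonneg hi0 he0', mul_nonneg hd0 he0, mul_nonneg hi0 hd0,
      mul_nonneg hi0 (sub_nonneg.2 m2.le), mul_nonneg hi0 (sub_nonneg.2 m1.le),
      mul_nonneg hd0 (sub_nonneg.2 m1.le), mul_nonneg hd0 (sub_nonneg.2 m2.le),
      mul_nonneg hd0 hNz'.le, mul_nonneg hi0 hNz'.le]
  · by_contra hcon
    push Not at hcon
    have hm := mul_lt_mul_of_pos_left hcon hNz'
    rw [key] at hm
    nlinarith [mul_nonneg hi0 he0, mul_nonneg hi0 he0', mul_nonneg hd0 he0, mul_nonneg hi0 hd0,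
      mul_nonneg hi0 (sub_nonneg.2 m2.le), mul_nonneg hi0 (sub_nonneg.2 m1.le),
      mul_nonneg hd0 (sub_nonneg.2 m1.le), mul_nonneg hd0 (sub_nonneg.2 m2.le),
      mul_nonneg hd0 hNz'.le, mul_nonneg hi0 hNz'.le]

/-- Proof: `j * n / N ≤ (N - 1) * n / N < n` if `0 < n`. -/
theorem prt_lt {n N j : ℕ} (hj : j < N) (hn : 0 < n) : j * n / N < n := by
  rw [Nat.div_lt_iff_lt_mul (by omega)]
  rw [mul_comm n N]
  exact Nat.mul_lt_mul_of_pos_right hj hn

/-- The vectors `iv` at time `i` have a small sum.  Proof: `N * ∑ prt t * iv t k =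
∑ (i * n t - e t) * iv t k = - ∑ e t * iv t k` with `0 ≤ e t < N`, so the absolute value is at most
`N * card T`. -/
theorem iv_small (iv : T → κ → ℤ) (hiv : ∀ t k, |iv t k| ≤ 1) {n : T → ℕ} {k : κ}
    (hb : ∑ t, (n t : ℤ) * iv t k = 0) {N : ℕ} (hN : 0 < N) (i : ℕ) :
    |∑ t, (prt n N i t : ℤ) * iv t k| ≤ Fintype.card T := by
  have hNz : (0 : ℤ) < N := by exact_mod_cast hN
  have h1 : (N : ℤ) * ∑ t, (prt n N i t : ℤ) * iv t k =
      - ∑ t, ((i * n t % N : ℕ) : ℤ) * iv t k := by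
    have h2 : ∀ t, (N : ℤ) * ((prt n N i t : ℤ) * iv t k) =
        i * ((n t : ℤ) * iv t k) - ((i * n t % N : ℕ) : ℤ) * iv t k := by
      intro t
      have e1 := Nat.div_add_mod (i * n t) N
      have e2 : (N : ℤ) * (prt n N i t : ℤ) = i * n t - ((i * n t % N : ℕ) : ℤ) := by
        have e3 : (prt n N i t : ℕ) = i * n t / N := rfl
        rw [e3]
        have e4 : ((N * (i * n t / N) + i * n t % N : ℕ) : ℤ) = ((i * n t : ℕ) : ℤ) := by
          exact_mod_cast e1
        push_cast at e4 ⊢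
        linarith
      rw [← mul_assoc, e2]
      ring
    rw [Finset.mul_sum, Finset.sum_congr rfl (fun t _ => h2 t), Finset.sum_sub_distrib,
      ← Finset.mul_sum, hb]
    ring
  have h3 : |(N : ℤ) * ∑ t, (prt n N i t : ℤ) * iv t k| ≤ N * Fintype.card T := by
    rw [h1, abs_neg]
    calc |∑ t, ((i * n t % N : ℕ) : ℤ) * iv t k| ≤ ∑ t, |((i * n t % N : ℕ) : ℤ) * iv t k| :=
          Finset.abs_sum_le_sum_abs _ _
      _ ≤ ∑ _t : T, (N : ℤ) := by
          apply Finset.sum_le_sum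
          intro t _
          rw [abs_mul]
          have h4 : |((i * n t % N : ℕ) : ℤ)| ≤ N := by
            rw [abs_of_nonneg (by positivity)]
            exact_mod_cast (Nat.mod_lt _ hN).le
          calc |((i * n t % N : ℕ) : ℤ)| * |iv t k| ≤ N * 1 :=
                mul_le_mul h4 (hiv t k) (abs_nonneg _) hNz.le
            _ = N := mul_one _
      _ = N * Fintype.card T := by
          rw [Finset.sum_const, Finset.card_univ, nsmul_eq_mul, mul_comm]
  rw [abs_mul, abs_of_pos hNz] at h3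
  exact le_of_mul_le_mul_left h3 hNz

end Pool.Agent.Lib.MP_bb9e9d_lc
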