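import Pool.Agent.Lib.MP_bb9e9d_lc.Core.CutA
import Pool.Agent.Lib.MP_bb9e9d_lc.Core.CutB

/-! # Cutting: one cut -/

namespace Pool.Agent.Lib.MP_bb9e9d_lc

variable {T O Γ ι κ F Λ : Type} [Fintype T] [Fintype O] [Fintype Γ] [Fintype ι] [Fintype κ]
  [Fintype F] [Fintype Λ]

/-- One cut.  Proof: `R.Reach` for `n' = prt i + (n - prt j)`: if `u` is a reachable goal, then
(`split` with `m1 = prt i`, `p = i`, `q = N - j + i`, `c = 2`, `cut_arith`) `u = u1 + u2` with
`u1 ∈ Reach (prt i)`, `u2 ∈ Reach (n - prt j)` and, since `u.1 = 0`, `|u1| ≤ cst T O Γ 2`.  So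
`u1 = unbx w` for some `w`, hence `u1 ∈ Reach (prt j)` by `hR`, and `u = u1 + u2 ∈ Reach n` as
`prt j + (n - prt j) = n` (`prt j t ≤ n t`). -/
theorem cut_none [AddCommMonoid F] (R : RP T O Γ ((ι → ℤ) × F)) (hsm : R.Small)
    {goal : Set ((ι → ℤ) × F)} (hg : ∀ u ∈ goal, u.1 = 0) {n : T → ℕ}
    (hn : ∀ u ∈ R.Reach n, u ∉ goal) {N i j : ℕ} (hij : i < j) (hj : j < N)
    (hR : {w : Bx (cst T O Γ 2) ι F | unbx w ∈ R.Reach (prt n N i)} =
      {w | unbx w ∈ R.Reach (prt n N j)}) :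
    ∀ u ∈ R.Reach (fun t => prt n N i t + (n t - prt n N j t)), u ∉ goal := by
  intro u hu hug
  have hu0 := hg u hug
  obtain ⟨u1, hu1, u2, hu2, huu, hb⟩ := split R hsm
    (m := fun t => prt n N i t + (n t - prt n N j t)) (m1 := prt n N i)
    (m2 := fun t => n t - prt n N j t) rfl (p := i) (q := N - j + i) (c := 2)
    (by omega) (by omega) (fun t => by
      have h := cut_arith (n := n t) hij hj
      exact h) hu
  obtain ⟨C, hC⟩ : ∃ C : ℕ, C = cst T O Γ 2 := ⟨_, rfl⟩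
  have hq : (0 : ℤ) < ((N - j + i : ℕ) : ℤ) := by
    have : 0 < N - j + i := by omega
    exact_mod_cast this
  have hC1 : ∀ k, |u1.1 k| ≤ (C : ℤ) := by
    intro k
    have h1 := hb k
    rw [hu0] at h1
    simp only [Pi.zero_apply, mul_zero, sub_zero] at h1
    rw [abs_mul, abs_of_pos hq, ← hC] at h1
    exact le_of_mul_le_mul_left h1 hq
  have hw : ∀ k, (u1.1 k + C).toNat < 2 * cst T O Γ 2 + 1 := by
    intro k
    have h1 := abs_le.1 (hC1 k)
    rw [← hC]
    omega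
  have hun : unbx (C := cst T O Γ 2) ((fun k => ⟨(u1.1 k + C).toNat, hw k⟩, u1.2) : Bx (cst T O Γ 2) ι F) = u1 := by
    unfold unbx
    refine Prod.ext ?_ rfl
    funext k
    have h1 := abs_le.1 (hC1 k)
    simp only
    rw [← hC]
    omega
  have hmem : ((fun k => ⟨(u1.1 k + C).toNat, hw k⟩, u1.2) : Bx (cst T O Γ 2) ι F) ∈
      {w : Bx (cst T O Γ 2) ι F | unbx w ∈ R.Reach (prt n N i)} := by
    rw [Set.mem_ofPred_eq, hun]
    exact hu1
  rw [hR, Set.mem_ofPred_eq, hun] at hmem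
  have h2 := RP.Reach.add hmem hu2
  have h3 : (prt n N j + fun t => n t - prt n N j t) = n := by
    funext t
    simp only [Pi.add_apply]
    have h4 : prt n N j t ≤ n t := by
      unfold prt
      apply Nat.div_le_of_le_mul
      exact Nat.mul_le_mul_right _ hj.le
    omega
  rw [h3, ← huu] at h2
  exact hn u h2 hug

end Pool.Agent.Lib.MP_bb9e9d_lc
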