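import Pool.Agent.Lib.MP_bb9e9d_lc.Core.Split

/-!
# The small model property, abstractly

A family `R ℓ` (`ℓ : Λ`) of reachability problems with goals `goal ℓ` all of whose members have the
vector part zero, and integer vectors `iv t`.  `Good n`: the vectors `iv t` with multiplicities `n t`
have the sum zero, and for no `ℓ` a goal is reachable for the multiplicities `n`.  Every good `n`
can be decreased, keeping its support, to a good `n'` with all entries at most `bound`.
-/

namespace Pool.Agent.Lib.MP_bb9e9d_lc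

variable {T O Γ ι κ F Λ : Type} [Fintype T] [Fintype O] [Fintype Γ] [Fintype ι] [Fintype κ]
  [Fintype F] [Fintype Λ]

/-- `n` is good. -/
structure Good [AddCommMonoid F] (R : Λ → RP T O Γ ((ι → ℤ) × F))
    (goal : Λ → Set ((ι → ℤ) × F)) (iv : T → κ → ℤ) (n : T → ℕ) : Prop where
  bal : ∀ k, ∑ t, (n t : ℤ) * iv t k = 0
  none : ∀ ℓ, ∀ u ∈ (R ℓ).Reach n, u ∉ goal ℓ

/-- the vectors with entries in `[-C, C]`, with flags -/
abbrev Bx (C : ℕ) (ι F : Type) : Type := (ι → Fin (2 * C + 1)) × F

/-- the vector given by an element of `Bx` -/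
def unbx {C : ℕ} (w : Bx C ι F) : (ι → ℤ) × F := (fun i => ((w.1 i : ℕ) : ℤ) - C, w.2)

/-- the states -/
abbrev St (T O Γ ι κ F Λ : Type) [Fintype T] [Fintype O] [Fintype Γ] : Type :=
  (Λ → Set (Bx (cst T O Γ 2) ι F)) × (κ → Fin (2 * Fintype.card T + 1))

/-- the bound for the entries -/
def bound (T O Γ ι κ F Λ : Type) [Fintype T] [Fintype O] [Fintype Γ] [Fintype ι] [Fintype κ]
    [Fintype F] [Fintype Λ] : ℕ :=
  (2 ^ ((2 * cst T O Γ 2 + 1) ^ Fintype.card ι * Fintype.card F)) ^ Fintype.card Λ *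
    (2 * Fintype.card T + 1) ^ Fintype.card κ

/-- the multiplicities at time `i` -/
def prt (n : T → ℕ) (N i : ℕ) : T → ℕ := fun t => i * n t / N

end Pool.Agent.Lib.MP_bb9e9d_lc
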