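import Pool.Agent.Lib.MP_bb9e9d_lc.Core.Basic
import Pool.Agent.Lib.MP_bb9e9d_lc.Core.Apportion

/-! # The splitting lemma -/

namespace Pool.Agent.Lib.MP_bb9e9d_lc

variable {T O Γ ι F : Type} [Fintype T] [Fintype O] [Fintype Γ]

private lemma entry [AddCommMonoid F] (R : RP T O Γ ((ι → ℤ) × F)) (a : T → O → ℕ) (b : Γ → ℕ)
    (i : ι) :
    (∑ t, ∑ o, a t o • R.val t o + ∑ γ, b γ • R.gval γ).1 i =
      ∑ t, ∑ o, (a t o : ℤ) * (R.val t o).1 i + ∑ γ, (b γ : ℤ) * (R.gval γ).1 i := by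
  simp only [Prod.fst_add, Prod.fst_sum, Pi.add_apply, Finset.sum_apply, Prod.smul_fst,
    nsmul_eq_mul, Pi.mul_apply, Pi.natCast_apply]

/-- The splitting lemma.  Proof: let `a, b` be the multiplicities of `u`.  For each `t` apply
`apportion` to `a t` (`∑ a t = m t = m1 t + m2 t`) and get `a1 t`; put `b1 γ = p * b γ / q` (so
`b1 ≤ b` and `|q * b1 γ - p * b γ| ≤ q`), and let `u1` be the vector of `a1, b1`, `u2` the vector of
`a - a1, b - b1` (natural subtraction, `a1 + (a - a1) = a`); `u = u1 + u2` by `add_nsmul`,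
`Finset.sum_add_distrib`.  The `i`-th entry of a sum `∑ a • val` is `∑ a * val i`; the difference
`q * u1 i - p * u i` is `∑_t ∑_o (q a1 - p a) val i + ∑_γ (q b1 - p b) gval i`, bounded by
`card T * card O * (q * (card O + c + 1)) + card Γ * q`. -/
theorem split [AddCommMonoid F] (R : RP T O Γ ((ι → ℤ) × F)) (hR : R.Small)
    {m m1 m2 : T → ℕ} (hm : m = m1 + m2) {p q c : ℕ} (hq : 0 < q) (hpq : p ≤ q)
    (hc : ∀ t, |(q : ℤ) * m1 t - p * m t| ≤ c * q) {u : (ι → ℤ) × F} (hu : u ∈ R.Reach m) :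
    ∃ u1 ∈ R.Reach m1, ∃ u2 ∈ R.Reach m2, u = u1 + u2 ∧
      ∀ i, |(q : ℤ) * u1.1 i - p * u.1 i| ≤ q * (cst T O Γ c : ℕ) := by
  obtain ⟨a, b, ha, hsum, hb, hu⟩ := hu
  have hmt : ∀ t, m t = m1 t + m2 t := fun t => by rw [hm]; rfl
  have hap : ∀ t, ∃ a1 : O → ℕ, (∀ o, a1 o ≤ a t o) ∧ ∑ o, a1 o = m1 t ∧
      ∀ o, |(q : ℤ) * a1 o - p * a t o| ≤ q * (Fintype.card O + c + 1 : ℕ) := by
    intro t
    refine apportion (a t) hq hpq ?_ ?_
    · rw [hsum t, hmt t]; exact Nat.le_add_right _ _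
    · rw [hsum t]; exact hc t
  choose a1 ha1 hs1 hd1 using hap
  have hb1 : ∀ γ, p * b γ / q ≤ b γ := fun γ => by
    apply Nat.div_le_of_le_mul
    exact Nat.mul_le_mul_right _ hpq
  have hbd : ∀ γ, |(q : ℤ) * (p * b γ / q : ℕ) - p * b γ| ≤ q := fun γ => by
    have h2 := Nat.div_add_mod (p * b γ) q
    have h3 := Nat.mod_lt (p * b γ) hq
    have h2z : (q : ℤ) * (p * b γ / q : ℕ) + ((p * b γ % q : ℕ) : ℤ) = p * b γ := by
      exact_mod_cast h2
    have h3z : ((p * b γ % q : ℕ) : ℤ) < q := by exact_mod_cast h3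
    have h4z : (0 : ℤ) ≤ ((p * b γ % q : ℕ) : ℤ) := by positivity
    rw [abs_le]
    constructor <;> linarith
  refine ⟨∑ t, ∑ o, a1 t o • R.val t o + ∑ γ, (p * b γ / q) • R.gval γ,
    ⟨a1, fun γ => p * b γ / q, ?_, hs1, ?_, rfl⟩,
    ∑ t, ∑ o, (a t o - a1 t o) • R.val t o + ∑ γ, (b γ - p * b γ / q) • R.gval γ,
    ⟨fun t o => a t o - a1 t o, fun γ => b γ - p * b γ / q, ?_, ?_, ?_, rfl⟩, ?_, ?_⟩
  · intro t o h
    refine ha t o ?_
    have := ha1 t o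
    omega
  · intro γ h
    refine hb γ (fun h0 => h ?_)
    simp [h0]
  · intro t o h
    refine ha t o ?_
    simp only at h
    omega
  · intro t
    rw [Finset.sum_tsub_distrib _ (fun o _ => ha1 t o), hsum t, hs1 t, hmt t]
    exact Nat.add_sub_cancel_left _ _
  · intro γ h
    refine hb γ (fun h0 => h ?_)
    simp [h0]
  · rw [hu]
    have h1 : ∑ t, ∑ o, a t o • R.val t o = ∑ t, ∑ o, a1 t o • R.val t o +
        ∑ t, ∑ o, (a t o - a1 t o) • R.val t o := by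
      rw [← Finset.sum_add_distrib]
      refine Finset.sum_congr rfl (fun t _ => ?_)
      rw [← Finset.sum_add_distrib]
      refine Finset.sum_congr rfl (fun o _ => ?_)
      rw [← add_nsmul, Nat.add_sub_cancel' (ha1 t o)]
    have h2 : ∑ γ, b γ • R.gval γ = ∑ γ, (p * b γ / q) • R.gval γ +
        ∑ γ, (b γ - p * b γ / q) • R.gval γ := by
      rw [← Finset.sum_add_distrib]
      refine Finset.sum_congr rfl (fun γ _ => ?_)
      rw [← add_nsmul, Nat.add_sub_cancel' (hb1 γ)]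
    rw [h1, h2]
    exact add_add_add_comm _ _ _ _
  · intro i
    rw [hu, entry, entry]
    have h1 : (q : ℤ) * (∑ t, ∑ o, (a1 t o : ℤ) * (R.val t o).1 i +
        ∑ γ, ((p * b γ / q : ℕ) : ℤ) * (R.gval γ).1 i) -
        p * (∑ t, ∑ o, (a t o : ℤ) * (R.val t o).1 i + ∑ γ, (b γ : ℤ) * (R.gval γ).1 i) =
        ∑ t, ∑ o, ((q : ℤ) * a1 t o - p * a t o) * (R.val t o).1 i +
        ∑ γ, ((q : ℤ) * (p * b γ / q : ℕ) - p * b γ) * (R.gval γ).1 i := by
      simp only [mul_add, Finset.mul_sum, sub_mul, Finset.sum_sub_distrib, mul_assoc]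
      ring
    rw [h1]
    refine (abs_add_le _ _).trans ?_
    have h2 : |∑ t, ∑ o, ((q : ℤ) * a1 t o - p * a t o) * (R.val t o).1 i| ≤
        ∑ _t : T, ∑ _o : O, (q : ℤ) * (Fintype.card O + c + 1 : ℕ) := by
      refine (Finset.abs_sum_le_sum_abs _ _).trans (Finset.sum_le_sum (fun t _ => ?_))
      refine (Finset.abs_sum_le_sum_abs _ _).trans (Finset.sum_le_sum (fun o _ => ?_))
      rw [abs_mul]
      have h3 := hd1 t o
      have h4 := hR.val t o i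
      calc |(q : ℤ) * a1 t o - p * a t o| * |(R.val t o).1 i|
          ≤ |(q : ℤ) * a1 t o - p * a t o| * 1 := mul_le_mul_of_nonneg_left h4 (abs_nonneg _)
        _ ≤ _ := by rw [mul_one]; exact h3
    have h3 : |∑ γ, ((q : ℤ) * (p * b γ / q : ℕ) - p * b γ) * (R.gval γ).1 i| ≤
        ∑ _γ : Γ, (q : ℤ) := by
      refine (Finset.abs_sum_le_sum_abs _ _).trans (Finset.sum_le_sum (fun γ _ => ?_))
      rw [abs_mul]
      have h4 := hbd γ
      have h5 := hR.gval γ i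
      calc |(q : ℤ) * (p * b γ / q : ℕ) - p * b γ| * |(R.gval γ).1 i|
          ≤ |(q : ℤ) * (p * b γ / q : ℕ) - p * b γ| * 1 :=
            mul_le_mul_of_nonneg_left h5 (abs_nonneg _)
        _ ≤ _ := by rw [mul_one]; exact h4
    refine (add_le_add h2 h3).trans (le_of_eq ?_)
    simp only [Finset.sum_const, Finset.card_univ, nsmul_eq_mul, cst]
    push_cast
    ring

/-- Halving.  Proof: `split` with `m1 = m2 = h`, `p = 1`, `q = 2`, `c = 0` (the differences are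
zero).  `|2 u1 - u| ≤ 2 C`, and `2 u2 - u = u - 2 u1`. -/
theorem split_half [AddCommMonoid F] (R : RP T O Γ ((ι → ℤ) × F)) (hR : R.Small)
    {h : T → ℕ} {u : (ι → ℤ) × F} (hu : u ∈ R.Reach (h + h)) :
    ∃ u1 ∈ R.Reach h, ∃ u2 ∈ R.Reach h, u = u1 + u2 ∧
      ∀ i, |2 * u1.1 i - u.1 i| ≤ 2 * (cst T O Γ 0 : ℕ) ∧
        |2 * u2.1 i - u.1 i| ≤ 2 * (cst T O Γ 0 : ℕ) := by
  obtain ⟨u1, hu1, u2, hu2, he, hb⟩ := split R hR (m := h + h) (m1 := h) (m2 := h) rfl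
    (p := 1) (q := 2) (c := 0) (by norm_num) (by norm_num) (fun t => by
      simp only [Pi.add_apply]
      push_cast
      rw [show (2 : ℤ) * h t - 1 * (h t + h t) = 0 by ring]
      simp) hu
  refine ⟨u1, hu1, u2, hu2, he, fun i => ?_⟩
  have h1 := hb i
  have h2 : u.1 i = u1.1 i + u2.1 i := by rw [he]; rfl
  have h3 : |2 * u1.1 i - u.1 i| ≤ 2 * (cst T O Γ 0 : ℕ) := by
    simpa using h1
  refine ⟨h3, ?_⟩
  have h4 : 2 * u2.1 i - u.1 i = -(2 * u1.1 i - u.1 i) := by rw [h2]; ring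
  rw [h4, abs_neg]
  exact h3

end Pool.Agent.Lib.MP_bb9e9d_lc
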