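import Pool.Agent.Lib.MP_bb9e9d_lc.Core.Basic
import Pool.Agent.Lib.MP_bb9e9d_lc.Core.Apportion

/-! # Halving a combination of free generators -/

namespace Pool.Agent.Lib.MP_bb9e9d_lc

variable {T O Γ ι F : Type} [Fintype T] [Fintype O] [Fintype Γ]

private lemma fst_sum_smul [AddCommMonoid F] (g : Γ → (ι → ℤ) × F) (b : Γ → ℕ) (i : ι) :
    (∑ γ, b γ • g γ).1 i = ∑ γ, (b γ : ℤ) * (g γ).1 i := by
  rw [Prod.fst_sum, Finset.sum_apply]
  refine Finset.sum_congr rfl fun γ _ => ?_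
  simp

/-- Halving of a combination of `n ≥ 2` free generators: both parts use fewer generators.
Proof: `apportion` (over the type `Γ`) with `m1 = n / 2`, `p = 1`, `q = 2`, `c = 1`
(`|2 * (n/2) - n| ≤ 1`), so `|2 b1 γ - b γ| ≤ 2 * (card Γ + 2)`, and the sum over `γ`. -/
theorem split_free [AddCommMonoid F] (g : Γ → (ι → ℤ) × F) (gok : Γ → Prop)
    (hg : ∀ γ i, |(g γ).1 i| ≤ 1) (b : Γ → ℕ) (hb : ∀ γ, b γ ≠ 0 → gok γ) (h2 : 2 ≤ ∑ γ, b γ) :
    ∃ b1 b2 : Γ → ℕ, b1 + b2 = b ∧ ∑ γ, b1 γ < ∑ γ, b γ ∧ ∑ γ, b2 γ < ∑ γ, b γ ∧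
      ∀ i, |2 * (∑ γ, b1 γ • g γ).1 i - (∑ γ, b γ • g γ).1 i| ≤
          2 * (Fintype.card Γ * (Fintype.card Γ + 2) : ℕ) ∧
        |2 * (∑ γ, b2 γ • g γ).1 i - (∑ γ, b γ • g γ).1 i| ≤
          2 * (Fintype.card Γ * (Fintype.card Γ + 2) : ℕ) := by
  set n := ∑ γ, b γ with hn
  obtain ⟨b1, hle, hsum, hbd⟩ := apportion b (m1 := n / 2) (p := 1) (q := 2) (c := 1) (by norm_num)
    (by norm_num) (by omega) (by
      rw [← hn, abs_le]
      push_cast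
      constructor <;> omega)
  have hadd : b1 + (fun γ => b γ - b1 γ) = b := by
    funext γ
    simp only [Pi.add_apply]
    have := hle γ
    omega
  have hs2 : ∑ γ, (b γ - b1 γ) = n - n / 2 := by
    have h : ∑ γ, b1 γ + ∑ γ, (b γ - b1 γ) = n := by
      rw [← Finset.sum_add_distrib, hn]
      refine Finset.sum_congr rfl fun γ _ => ?_
      have := hle γ
      omega
    omega
  have hd : ∀ γ, |2 * (b1 γ : ℤ) - b γ| ≤ 2 * (Fintype.card Γ + 2 : ℕ) := by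
    intro γ
    have := hbd γ
    simpa [add_assoc] using this
  have hmain : ∀ (c : Γ → ℕ), (∀ γ, |2 * (c γ : ℤ) - b γ| ≤ 2 * (Fintype.card Γ + 2 : ℕ)) →
      ∀ i, |2 * (∑ γ, c γ • g γ).1 i - (∑ γ, b γ • g γ).1 i| ≤
          2 * (Fintype.card Γ * (Fintype.card Γ + 2) : ℕ) := by
    intro c hc i
    rw [fst_sum_smul, fst_sum_smul, Finset.mul_sum, ← Finset.sum_sub_distrib]
    refine (Finset.abs_sum_le_sum_abs _ _).trans ?_
    have h1 : ∀ γ ∈ Finset.univ, |2 * ((c γ : ℤ) * (g γ).1 i) - (b γ : ℤ) * (g γ).1 i| ≤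
        2 * (Fintype.card Γ + 2 : ℕ) := by
      intro γ _
      have e : 2 * ((c γ : ℤ) * (g γ).1 i) - (b γ : ℤ) * (g γ).1 i =
        (2 * (c γ : ℤ) - b γ) * (g γ).1 i := by ring
      rw [e, abs_mul]
      calc |2 * (c γ : ℤ) - b γ| * |(g γ).1 i| ≤ |2 * (c γ : ℤ) - b γ| * 1 :=
            mul_le_mul_of_nonneg_left (hg γ i) (abs_nonneg _)
        _ ≤ _ := by rw [mul_one]; exact hc γ
    refine (Finset.sum_le_sum h1).trans ?_
    rw [Finset.sum_const, Finset.card_univ, nsmul_eq_mul]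
    push_cast
    nlinarith
  refine ⟨b1, fun γ => b γ - b1 γ, hadd, by omega, by rw [hs2]; omega, fun i => ⟨hmain b1 hd i, ?_⟩⟩
  refine hmain _ ?_ i
  intro γ
  have h3 : 2 * (((b γ - b1 γ : ℕ)) : ℤ) - b γ = -(2 * (b1 γ : ℤ) - b γ) := by
    rw [Nat.cast_sub (hle γ)]
    ring
  rw [h3, abs_neg]
  exact hd γ

end Pool.Agent.Lib.MP_bb9e9d_lc
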