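import Pool.Agent.Lib.MP_bb9e9d_lc.Core.Basic

/-! # Reachable vectors: sums and single contributions -/

namespace Pool.Agent.Lib.MP_bb9e9d_lc

variable {T O Γ ι F : Type} [Fintype T] [Fintype O] [Fintype Γ]

/-- Sums of reachable vectors are reachable.  Proof: add the multiplicities. -/
theorem RP.Reach.add {V : Type} [AddCommMonoid V] {R : RP T O Γ V} {m1 m2 : T → ℕ} {u1 u2 : V}
    (h1 : u1 ∈ R.Reach m1) (h2 : u2 ∈ R.Reach m2) : u1 + u2 ∈ R.Reach (m1 + m2) := by
  obtain ⟨a1, b1, ha1, hm1, hb1, rfl⟩ := h1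
  obtain ⟨a2, b2, ha2, hm2, hb2, rfl⟩ := h2
  refine ⟨fun t o => a1 t o + a2 t o, fun γ => b1 γ + b2 γ, ?_, ?_, ?_, ?_⟩
  · intro t o h
    by_cases h' : a1 t o = 0
    · exact ha2 t o fun h'' => h (by simp only [h', h'', add_zero])
    · exact ha1 t o h'
  · intro t
    rw [Finset.sum_add_distrib, hm1, hm2, Pi.add_apply]
  · intro γ h
    by_cases h' : b1 γ = 0
    · exact hb2 γ fun h'' => h (by simp only [h', h'', add_zero])
    · exact hb1 γ h'
  · simp only [add_nsmul, Finset.sum_add_distrib]
    exact add_add_add_comm _ _ _ _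

/-- Proof: all multiplicities zero. -/
theorem RP.zero_mem {V : Type} [AddCommMonoid V] (R : RP T O Γ V) : (0 : V) ∈ R.Reach 0 := by
  refine ⟨fun _ _ => 0, fun _ => 0, ?_, ?_, ?_, ?_⟩
  · intro t o h
    exact absurd rfl h
  · intro t
    simp
  · intro γ h
    exact absurd rfl h
  · simp

/-- Proof: one free generator. -/
theorem RP.gval_mem {V : Type} [AddCommMonoid V] [DecidableEq Γ] (R : RP T O Γ V) {γ : Γ}
    (h : R.gok γ) : R.gval γ ∈ R.Reach 0 := by
  refine ⟨fun _ _ => 0, fun γ' => if γ' = γ then 1 else 0, ?_, ?_, ?_, ?_⟩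
  · intro t o h
    exact absurd rfl h
  · intro t
    simp
  · intro γ' h'
    have : γ' = γ := by
      by_contra hne
      exact h' (if_neg hne)
    rw [this]
    exact h
  · simp [ite_smul]

/-- Proof: one element of kind `t`. -/
theorem RP.val_mem {V : Type} [AddCommMonoid V] [DecidableEq T] [DecidableEq O] (R : RP T O Γ V)
    {t : T} {o : O} (h : R.ok t o) : R.val t o ∈ R.Reach (Pi.single t 1) := by
  refine ⟨fun t' o' => if t' = t ∧ o' = o then 1 else 0, fun _ => 0, ?_, ?_, ?_, ?_⟩
  · intro t' o' h'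
    have : t' = t ∧ o' = o := by
      by_contra hne
      exact h' (if_neg hne)
    rw [this.1, this.2]
    exact h
  · intro t'
    by_cases ht : t' = t
    · subst ht
      simp
    · rw [Pi.single_eq_of_ne ht]
      simp [ht]
  · intro γ h
    exact absurd rfl h
  · have h1 : ∀ t' o', (if t' = t ∧ o' = o then 1 else 0) • R.val t' o' =
        if t' = t then (if o' = o then R.val t o else 0) else 0 := by
      intro t' o'
      by_cases h2 : t' = t
      · by_cases h3 : o' = o
        · subst h2 h3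
          simp
        · simp [h3]
      · simp [h2]
    simp only [h1]
    simp

end Pool.Agent.Lib.MP_bb9e9d_lc
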