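import Pool.Agent.Lib.MP_bb9e9d_lc.Core.TableC

/-! # Tables: the exact sets are reachable -/

namespace Pool.Agent.Lib.MP_bb9e9d_lc

variable {T O Γ ι F : Type} [Fintype T] [Fintype O] [Fintype Γ]

private theorem TableD_inner [AddCommMonoid F] [DecidableEq T] (R : RP T O Γ ((ι → ℤ) × F))
    (a : List T) : ∀ (m : T → ℕ) (Y : Set ((ι → ℤ) × F)), Y ⊆ R.Reach m →
    exact Y (a.map fun t => some (R.opt t)) ⊆ R.Reach (m + fun t => a.count t) := by
  classical
  induction a with
  | nil =>
    intro m Y hY
    have : (m + fun t => ([] : List T).count t) = m := by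
      funext t
      simp
    rw [this]
    exact hY
  | cons t a ih =>
    intro m Y hY
    have h1 : (m + fun t' => (t :: a).count t') = (m + Pi.single t 1) + fun t' => a.count t' := by
      funext t'
      simp only [Pi.add_apply, List.count_cons, Pi.single_apply, beq_iff_eq]
      by_cases h : t' = t
      · subst h
        simp
        omega
      · have h' : t ≠ t' := fun e => h e.symm
        simp [h, h']
    rw [h1]
    refine ih _ _ ?_
    rintro w ⟨u, hu, v, ⟨o, ho, rfl⟩, rfl⟩
    exact RP.Reach.add (hY hu) (R.val_mem ho)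

private theorem TableD_outer [AddCommMonoid F] [DecidableEq T] (R : RP T O Γ ((ι → ℤ) × F))
    (l : List (List T)) : ∀ (m : T → ℕ) (Y : Set ((ι → ℤ) × F)), Y ⊆ R.Reach m →
    exact Y (opsOf R l) ⊆ R.Reach (l.foldl (fun m a => m + m + fun t => a.count t) m) := by
  induction l with
  | nil =>
    intro m Y hY
    exact hY
  | cons a l ih =>
    intro m Y hY
    have h1 : opsOf R (a :: l) = none :: ((a.map fun t => some (R.opt t)) ++ opsOf R l) := rfl
    rw [h1]
    show exact {w | ∃ u ∈ Y, ∃ v ∈ Y, w = u + v} ((a.map fun t => some (R.opt t)) ++ opsOf R l) ⊆ _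
    rw [exact_append]
    refine ih _ _ (TableD_inner R a _ _ ?_)
    rintro w ⟨u, hu, v, hv, rfl⟩
    exact RP.Reach.add (hY hu) (hY hv)

/-- Completeness: the exact sets contain only reachable vectors.  Proof: induction on `l` from the
right, inner induction on the added elements; `Reach.add`, `val_mem`. -/
theorem exact_sub [AddCommMonoid F] [DecidableEq T] (R : RP T O Γ ((ι → ℤ) × F))
    (l : List (List T)) : exact (R.Reach 0) (opsOf R l) ⊆ R.Reach (runM l) :=
  TableD_outer R l 0 _ (fun _ h => h)

end Pool.Agent.Lib.MP_bb9e9d_lc
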