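import Pool.Agent.Lib.MP_bb9e9d_lc.Core.TableDefs

/-! # Tables: additional operations -/

namespace Pool.Agent.Lib.MP_bb9e9d_lc

variable {T O Γ ι F : Type} [Fintype T] [Fintype O] [Fintype Γ]

/-- Additional operations with sets of vectors with vector part zero.  Proof: induction on `ops'`
(a list of sets of pure flags); `u + v` has the same vector part as `u`. -/
theorem cov_extra [AddCommMonoid F] {r : ℕ} (A : List (Set ((ι → ℤ) × F)))
    (hA : ∀ S ∈ A, ∀ v ∈ S, v.1 = 0) (D : ℕ → Set ((ι → ℤ) × F))
    (hD : ∀ i (h : i < A.length), Step r (some A[i]) (D i) (D (i + 1)))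
    {u : (ι → ℤ) × F} (hu : u ∈ D 0) (hb : Bd r u) (e : ℕ → (ι → ℤ) × F)
    (he : ∀ i (h : i < A.length), e i ∈ A[i]) :
    u + ∑ i ∈ Finset.range A.length, e i ∈ D A.length := by
  have key : ∀ k, k ≤ A.length → u + ∑ i ∈ Finset.range k, e i ∈ D k ∧
      (u + ∑ i ∈ Finset.range k, e i).1 = u.1 := by
    intro k
    induction k with
    | zero =>
      intro _
      simp only [Finset.range_zero, Finset.sum_empty, add_zero]
      exact ⟨hu, trivial⟩
    | succ k ih =>
      intro hk
      obtain ⟨h1, h2⟩ := ih (by omega)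
      have hk' : k < A.length := by omega
      have h3 : (e k).1 = 0 := hA _ (List.getElem_mem hk') _ (he k hk')
      rw [Finset.sum_range_succ, ← add_assoc]
      have h4 : (u + ∑ i ∈ Finset.range k, e i + e k).1 = u.1 := by
        rw [Prod.fst_add, h2, h3, add_zero]
      refine ⟨?_, h4⟩
      refine hD k hk' _ h1 _ (he k hk') ?_
      intro i
      rw [h4]
      exact hb i
  exact (key A.length le_rfl).1

/-- Proof: induction on `A`. -/
theorem exact_extra [AddCommMonoid F] (A : List (Set ((ι → ℤ) × F))) (X : Set ((ι → ℤ) × F))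
    {w : (ι → ℤ) × F} (hw : w ∈ exact X (A.map some)) :
    ∃ u ∈ X, ∃ e : ℕ → (ι → ℤ) × F, (∀ i (h : i < A.length), e i ∈ A[i]) ∧
      w = u + ∑ i ∈ Finset.range A.length, e i := by
  induction A generalizing X with
  | nil =>
    refine ⟨w, hw, fun _ => 0, fun i h => absurd h (by simp), ?_⟩
    simp
  | cons S A ih =>
    rw [List.map_cons] at hw
    unfold exact at hw
    obtain ⟨u', ⟨u, hu, v, hv, huv⟩, e', he', hw'⟩ := ih _ hw
    refine ⟨u, hu, fun i => match i with
      | 0 => v
      | i + 1 => e' i, ?_, ?_⟩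
    · intro i hi
      cases i with
      | zero => exact hv
      | succ i =>
        have hi' : i < A.length := by
          rw [List.length_cons] at hi
          omega
        exact he' i hi'
    · rw [List.length_cons, Finset.sum_range_succ', hw', huv]
      simp only
      rw [add_assoc, add_comm v]

end Pool.Agent.Lib.MP_bb9e9d_lc
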