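import Pool.Agent.Lib.MP_bb9e9d_lc.Core.TableDefs

/-! # Tables: binary digits -/

namespace Pool.Agent.Lib.MP_bb9e9d_lc

variable {T O Γ ι F : Type} [Fintype T] [Fintype O] [Fintype Γ]

/-- The binary digits as rounds.  Proof: induction on `K`: with `n = 2 h + b`, `b t = n t % 2`,
the last round is the list of the `t` with `n t` odd; the earlier rounds are those of `h = n / 2`
(`Nat.testBit_succ`).  `List.count` of a filter of a list without repetitions. -/
theorem runM_bits [DecidableEq T] (L : List T) (hL : L.Nodup) (n : T → ℕ) (K : ℕ)
    (hn : ∀ t, n t < 2 ^ K) (hs : ∀ t, t ∉ L → n t = 0) :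
    runM ((List.range K).map fun i => L.filter fun t => (n t).testBit (K - 1 - i)) = n := by
  induction K generalizing n with
  | zero =>
    funext t
    have := hn t
    simp only [List.range_zero, List.map_nil, runM, List.foldl_nil, Pi.zero_apply]
    omega
  | succ K ih =>
    have h1 := ih (fun t => n t / 2) (fun t => by
      have := hn t
      rw [pow_succ] at this
      show n t / 2 < 2 ^ K
      omega) (fun t ht => by
      show n t / 2 = 0
      rw [hs t ht])
    have h2 : (List.range (K + 1)).map (fun i => L.filter fun t => (n t).testBit (K + 1 - 1 - i)) =
        (List.range K).map (fun i => L.filter fun t => (n t / 2).testBit (K - 1 - i)) ++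
          [L.filter fun t => (n t).testBit 0] := by
      rw [List.range_succ, List.map_append, List.map_singleton]
      congr 1
      · apply List.map_congr_left
        intro i hi
        rw [List.mem_range] at hi
        apply List.filter_congr
        intro t _
        have h3 : K + 1 - 1 - i = (K - 1 - i) + 1 := by omega
        rw [h3, Nat.testBit_succ]
      · rw [Nat.add_sub_cancel, Nat.sub_self]
    rw [h2]
    unfold runM at h1 ⊢
    rw [List.foldl_append, h1]
    simp only [List.foldl_cons, List.foldl_nil]
    funext t
    simp only [Pi.add_apply]
    have hnd : (L.filter fun t => (n t).testBit 0).Nodup := hL.filter _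
    by_cases hb : (n t).testBit 0 = true
    · have hmem : t ∈ L.filter fun t => (n t).testBit 0 := by
        rw [List.mem_filter]
        refine ⟨?_, hb⟩
        by_contra hc
        rw [hs t hc] at hb
        simp at hb
      rw [List.count_eq_one_of_mem hnd hmem]
      rw [Nat.testBit_zero, decide_eq_true_eq] at hb
      omega
    · have hmem : t ∉ L.filter fun t => (n t).testBit 0 := by
        rw [List.mem_filter]
        exact fun h => hb h.2
      rw [List.count_eq_zero_of_not_mem hmem]
      rw [Nat.testBit_zero, decide_eq_true_eq] at hb
      omega

end Pool.Agent.Lib.MP_bb9e9d_lc
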