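import Pool.Agent.Lib.MP_bb9e9d_lc.Core.TableB
import Pool.Agent.Lib.MP_bb9e9d_lc.Core.TableD
import Pool.Agent.Lib.MP_bb9e9d_lc.Core.TableE
import Pool.Agent.Lib.MP_bb9e9d_lc.Core.TableF

/-! # Tables -/
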