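import Pool.Agent.Lib.MP_bb9e9d_lc.Core.TableDefs

/-! # Tables: the three steps -/

namespace Pool.Agent.Lib.MP_bb9e9d_lc

variable {T O Γ ι F : Type} [Fintype T] [Fintype O] [Fintype Γ]

/-- Proof: `u ∈ Reach 0` is `∑ b γ • gval γ` (as all `a t o = 0`).  Strong induction on `∑ b`: for
`0`, `u = 0`; for `1`, `u = gval γ`; otherwise `split_free`, both parts are in the box: `2 |u1| ≤
|u| + 2 * (card Γ * (card Γ + 2)) ≤ r + r`. -/
theorem cov_base [AddCommMonoid F] (R : RP T O Γ ((ι → ℤ) × F)) (hR : R.Small) {r : ℕ}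
    (hr : 2 * (Fintype.card Γ * (Fintype.card Γ + 2)) ≤ r) {D : Set ((ι → ℤ) × F)}
    (h : Base R r D) : Cov R D 0 r := by
  classical
  have key : ∀ n : ℕ, ∀ b : Γ → ℕ, (∀ γ, b γ ≠ 0 → R.gok γ) → ∑ γ, b γ = n →
      Bd r (∑ γ, b γ • R.gval γ) → ∑ γ, b γ • R.gval γ ∈ D := by
    intro n
    induction n using Nat.strong_induction_on with
    | _ n ih =>
      intro b hb hn hB
      rcases Nat.lt_or_ge n 2 with hlt | hge
      · rcases Nat.eq_zero_or_pos n with h0 | hpos
        · have hb0 : ∀ γ, b γ = 0 := by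
            intro γ
            have := (Finset.sum_eq_zero_iff.mp (hn.trans h0)) γ (Finset.mem_univ γ)
            exact this
          have : ∑ γ, b γ • R.gval γ = 0 := by
            refine Finset.sum_eq_zero fun γ _ => ?_
            rw [hb0 γ, zero_nsmul]
          rw [this]
          exact h.zero
        · have hn1 : ∑ γ, b γ = 1 := by omega
          obtain ⟨γ0, -, hγ0⟩ := Finset.exists_ne_zero_of_sum_ne_zero
            (show ∑ γ, b γ ≠ 0 by omega)
          have hs := Finset.add_sum_erase Finset.univ b (Finset.mem_univ γ0)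
          have he : ∑ γ ∈ Finset.univ.erase γ0, b γ = 0 := by omega
          have h1 : b γ0 = 1 := by omega
          have hz : ∀ γ ∈ Finset.univ.erase γ0, b γ = 0 := Finset.sum_eq_zero_iff.mp he
          have hsum : ∑ γ, b γ • R.gval γ = R.gval γ0 := by
            rw [← Finset.add_sum_erase Finset.univ (fun γ => b γ • R.gval γ)
              (Finset.mem_univ γ0), h1, one_nsmul, Finset.sum_eq_zero, add_zero]
            intro γ hγ
            rw [hz γ hγ, zero_nsmul]
          rw [hsum]
          exact h.gen γ0 (hb γ0 hγ0)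
      · obtain ⟨b1, b2, hadd, hs1, hs2, hbd⟩ := split_free R.gval R.gok hR.gval b hb
          (by omega)
        have hu : ∑ γ, b γ • R.gval γ = ∑ γ, b1 γ • R.gval γ + ∑ γ, b2 γ • R.gval γ := by
          rw [← Finset.sum_add_distrib]
          refine Finset.sum_congr rfl fun γ _ => ?_
          rw [← add_nsmul, ← hadd, Pi.add_apply]
        have hbb : ∀ γ, b1 γ + b2 γ = b γ := fun γ => by rw [← hadd, Pi.add_apply]
        have hr' : (2 : ℤ) * ((Fintype.card Γ * (Fintype.card Γ + 2) : ℕ) : ℤ) ≤ r := by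
          exact_mod_cast hr
        have hB1 : Bd r (∑ γ, b1 γ • R.gval γ) := by
          intro i
          have e1 := (hbd i).1
          have e2 := hB i
          rw [abs_le] at e1 e2 ⊢
          constructor <;> linarith [e1.1, e1.2, e2.1, e2.2]
        have hB2 : Bd r (∑ γ, b2 γ • R.gval γ) := by
          intro i
          have e1 := (hbd i).2
          have e2 := hB i
          rw [abs_le] at e1 e2 ⊢
          constructor <;> linarith [e1.1, e1.2, e2.1, e2.2]
        have m1 := ih _ (by omega) b1 (fun γ hγ => hb γ (by have := hbb γ; omega)) rfl hB1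
        have m2 := ih _ (by omega) b2 (fun γ hγ => hb γ (by have := hbb γ; omega)) rfl hB2
        rw [hu] at hB ⊢
        exact h.add _ m1 _ m2 hB
  intro u hu hB
  obtain ⟨a, b, ha, hm, hb, rfl⟩ := hu
  have ha0 : ∀ t o, a t o = 0 := fun t o =>
    Finset.sum_eq_zero_iff.mp (hm t) o (Finset.mem_univ o)
  have hz : ∑ t, ∑ o, a t o • R.val t o = 0 := by
    refine Finset.sum_eq_zero fun t _ => Finset.sum_eq_zero fun o _ => ?_
    rw [ha0 t o, zero_nsmul]
  rw [hz, zero_add] at hB ⊢
  exact key _ b hb rfl hB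

/-- Proof: `split_half`; `2 |u1| ≤ |u| + 2 cst ≤ r + 2 cst ≤ 2 (r - card T)`. -/
theorem cov_double [AddCommMonoid F] (R : RP T O Γ ((ι → ℤ) × F)) (hR : R.Small) {r : ℕ}
    (hr : 2 * (cst T O Γ 0 + Fintype.card T) ≤ r) {D D' : Set ((ι → ℤ) × F)} {m : T → ℕ}
    (h : Cov R D m (r - Fintype.card T)) (hD : Step r none D D') : Cov R D' (m + m) r := by
  intro u hu hB
  obtain ⟨u1, hu1, u2, hu2, he, hbd⟩ := split_half R hR hu
  have hle : Fintype.card T ≤ r := by omega
  have hr' : (2 : ℤ) * (((cst T O Γ 0 : ℕ) : ℤ) + ((Fintype.card T : ℕ) : ℤ)) ≤ (r : ℤ) := by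
    exact_mod_cast hr
  have hc : (((r - Fintype.card T : ℕ)) : ℤ) = (r : ℤ) - (Fintype.card T : ℕ) := by
    rw [Nat.cast_sub hle]
  have hB1 : Bd (r - Fintype.card T) u1 := by
    intro i
    have e1 := (hbd i).1
    have e2 := hB i
    rw [hc]
    rw [abs_le] at e1 e2 ⊢
    constructor <;> linarith [e1.1, e1.2, e2.1, e2.2]
  have hB2 : Bd (r - Fintype.card T) u2 := by
    intro i
    have e1 := (hbd i).2
    have e2 := hB i
    rw [hc]
    rw [abs_le] at e1 e2 ⊢
    constructor <;> linarith [e1.1, e1.2, e2.1, e2.2]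
  rw [he] at hB ⊢
  exact hD u1 (h u1 hu1 hB1) u2 (h u2 hu2 hB2) hB

/-- Proof: if `u ∈ Reach (m + Pi.single t 1)` with multiplicities `a, b`, some `a t o ≠ 0` (the sum
is `m t + 1`); remove one: `u = u' + val t o` with `u' ∈ Reach m`, and `|u'| ≤ |u| + 1`. -/
theorem cov_add [AddCommMonoid F] [DecidableEq T] (R : RP T O Γ ((ι → ℤ) × F)) (hR : R.Small)
    {r s : ℕ} (hs : s + 1 ≤ r) {D D' : Set ((ι → ℤ) × F)} {m : T → ℕ} {t : T}
    (h : Cov R D m (s + 1)) (hD : Step r (some (R.opt t)) D D') :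
    Cov R D' (m + Pi.single t 1) s := by
  classical
  intro u hu hB
  obtain ⟨a, b, ha, hm, hb, hu⟩ := hu
  have hmt : ∑ o, a t o = m t + 1 := by
    rw [hm t, Pi.add_apply, Pi.single_eq_same]
  obtain ⟨o, -, ho⟩ := Finset.exists_ne_zero_of_sum_ne_zero (show ∑ o, a t o ≠ 0 by omega)
  set a' : T → O → ℕ := fun t' o' => a t' o' - if t' = t ∧ o' = o then 1 else 0 with ha'
  have haa : ∀ t' o', a t' o' = a' t' o' + if t' = t ∧ o' = o then 1 else 0 := by
    intro t' o'
    rw [ha']
    by_cases h1 : t' = t ∧ o' = o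
    · obtain ⟨rfl, rfl⟩ := h1
      simp only [and_self, if_true]
      omega
    · simp only [h1, if_false]
      omega
  have hδ : ∀ t' o', (if t' = t ∧ o' = o then 1 else 0) • R.val t' o' =
      if t' = t then (if o' = o then R.val t o else 0) else 0 := by
    intro t' o'
    by_cases h2 : t' = t
    · by_cases h3 : o' = o
      · subst h2 h3
        simp
      · simp [h3]
    · simp [h2]
  have hsum : ∑ t', ∑ o', a t' o' • R.val t' o' =
      ∑ t', ∑ o', a' t' o' • R.val t' o' + R.val t o := by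
    have e1 : ∑ t', ∑ o', (if t' = t ∧ o' = o then 1 else 0) • R.val t' o' = R.val t o := by
      simp only [hδ]
      simp
    have e2 : ∑ t', ∑ o', a t' o' • R.val t' o' = ∑ t', ∑ o', a' t' o' • R.val t' o' +
        ∑ t', ∑ o', (if t' = t ∧ o' = o then 1 else 0) • R.val t' o' := by
      rw [← Finset.sum_add_distrib]
      refine Finset.sum_congr rfl fun t' _ => ?_
      rw [← Finset.sum_add_distrib]
      refine Finset.sum_congr rfl fun o' _ => ?_
      rw [← add_nsmul, ← haa]
    rw [e2, e1]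
  have hu' : u = (∑ t', ∑ o', a' t' o' • R.val t' o' + ∑ γ, b γ • R.gval γ) + R.val t o := by
    rw [hu, hsum, add_right_comm]
  have hmem : (∑ t', ∑ o', a' t' o' • R.val t' o' + ∑ γ, b γ • R.gval γ) ∈ R.Reach m := by
    refine ⟨a', b, ?_, ?_, hb, rfl⟩
    · intro t' o' h'
      refine ha t' o' fun h0 => h' ?_
      rw [ha']
      simp only [h0]
      omega
    · intro t'
      have e1 : ∑ o', a t' o' = ∑ o', a' t' o' + ∑ o', (if t' = t ∧ o' = o then 1 else 0) := by
        rw [← Finset.sum_add_distrib]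
        exact Finset.sum_congr rfl fun o' _ => haa t' o'
      have e2 := hm t'
      by_cases h1 : t' = t
      · subst h1
        have e3 : ∑ o', (if t' = t' ∧ o' = o then 1 else 0) = 1 := by simp
        rw [Pi.add_apply, Pi.single_eq_same] at e2
        omega
      · have e3 : ∑ o', (if t' = t ∧ o' = o then 1 else 0) = 0 := by simp [h1]
        rw [Pi.add_apply, Pi.single_eq_of_ne h1] at e2
        omega
  have hval := ha t o ho
  have hB' : Bd (s + 1) (∑ t', ∑ o', a' t' o' • R.val t' o' + ∑ γ, b γ • R.gval γ) := by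
    intro i
    have e1 := hB i
    have e2 := hR.val t o i
    rw [hu'] at e1
    rw [Prod.fst_add, Pi.add_apply] at e1
    push_cast
    rw [abs_le] at e1 e2 ⊢
    constructor <;> linarith [e1.1, e1.2, e2.1, e2.2]
  have hBr : Bd r u := by
    intro i
    refine (hB i).trans ?_
    have : s ≤ r := by omega
    exact_mod_cast this
  rw [hu'] at hBr ⊢
  exact hD _ (h _ hmem hB') _ ⟨o, hval, rfl⟩ hBr

end Pool.Agent.Lib.MP_bb9e9d_lc
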