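import Pool.Agent.Lib.MP_bb9e9d_lc.Core.TableA

/-! # Tables: soundness -/

namespace Pool.Agent.Lib.MP_bb9e9d_lc

variable {T O Γ ι F : Type} [Fintype T] [Fintype O] [Fintype Γ]

private theorem TableB_mono [AddCommMonoid F] {R : RP T O Γ ((ι → ℤ) × F)}
    {D : Set ((ι → ℤ) × F)} {m : T → ℕ} {r s : ℕ} (hs : s ≤ r) (h : Cov R D m r) :
    Cov R D m s := by
  intro u hu hb
  refine h u hu fun i => (hb i).trans ?_
  exact_mod_cast hs

/-- the steps along a list of operations -/
private def TableB_chain [AddCommMonoid F] (r : ℕ) (ops : List (Option (Set ((ι → ℤ) × F))))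
    (D : ℕ → Set ((ι → ℤ) × F)) : Prop :=
  ∀ i (h : i < ops.length), Step r (ops[i]) (D i) (D (i + 1))

private theorem TableB_cons [AddCommMonoid F] {r : ℕ} {op : Option (Set ((ι → ℤ) × F))}
    {ops : List (Option (Set ((ι → ℤ) × F)))} {D : ℕ → Set ((ι → ℤ) × F)}
    (h : TableB_chain r (op :: ops) D) :
    Step r op (D 0) (D 1) ∧ TableB_chain r ops (fun i => D (i + 1)) := by
  constructor
  · exact h 0 (Nat.succ_pos _)
  · intro i hi
    exact h (i + 1) (Nat.succ_lt_succ hi)

private theorem TableB_append [AddCommMonoid F] {r : ℕ}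
    {ops ops' : List (Option (Set ((ι → ℤ) × F)))} {D : ℕ → Set ((ι → ℤ) × F)}
    (h : TableB_chain r (ops ++ ops') D) :
    TableB_chain r ops D ∧ TableB_chain r ops' (fun i => D (ops.length + i)) := by
  constructor
  · intro i hi
    have h1 := h i (by rw [List.length_append]; omega)
    rwa [List.getElem_append_left hi] at h1
  · intro i hi
    have h1 := h (ops.length + i) (by rw [List.length_append]; omega)
    rw [List.getElem_append_right (by omega)] at h1
    simpa [Nat.add_sub_cancel_left, add_assoc] using h1

private theorem TableB_inner [AddCommMonoid F] [DecidableEq T] {R : RP T O Γ ((ι → ℤ) × F)}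
    (hR : R.Small) {r s : ℕ} (a : List T) : ∀ (m : T → ℕ) (D : ℕ → Set ((ι → ℤ) × F)),
    s + a.length ≤ r → Cov R (D 0) m (s + a.length) →
    TableB_chain r (a.map fun t => some (R.opt t)) D →
    Cov R (D a.length) (m + fun t => a.count t) s := by
  induction a with
  | nil =>
    intro m D _ h _
    have : (m + fun t => ([] : List T).count t) = m := by
      funext t
      simp
    rw [this]
    exact h
  | cons t a ih =>
    intro m D hs h hD
    have h1 : (m + fun t' => (t :: a).count t') = (m + Pi.single t 1) + fun t' => a.count t' := by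
      funext t'
      simp only [Pi.add_apply, List.count_cons, Pi.single_apply, beq_iff_eq]
      by_cases h : t' = t
      · subst h
        simp
        omega
      · have h' : t ≠ t' := fun e => h e.symm
        simp [h, h']
    rw [h1]
    rw [List.length_cons] at hs h
    obtain ⟨h2, h3⟩ := TableB_cons hD
    have h4 : Cov R (D 1) (m + Pi.single t 1) (s + a.length) :=
      cov_add R hR (by omega) (by rwa [add_assoc]) h2
    exact ih _ (fun i => D (i + 1)) (by omega) h4 h3

private theorem TableB_outer [AddCommMonoid F] [DecidableEq T] {R : RP T O Γ ((ι → ℤ) × F)}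
    (hR : R.Small) {r : ℕ} (hr : 2 * (cst T O Γ 0 + Fintype.card T) ≤ r)
    (l : List (List T)) : (∀ a ∈ l, a.length ≤ Fintype.card T) →
    ∀ (m : T → ℕ) (D : ℕ → Set ((ι → ℤ) × F)), Cov R (D 0) m (r - Fintype.card T) →
    TableB_chain r (opsOf R l) D →
    Cov R (D (opsOf R l).length) (l.foldl (fun m a => m + m + fun t => a.count t) m)
      (r - Fintype.card T) := by
  induction l with
  | nil =>
    intro _ m D h _
    exact h
  | cons a l ih =>
    intro hl m D h hD
    have h1 : opsOf R (a :: l) = none :: ((a.map fun t => some (R.opt t)) ++ opsOf R l) := rfl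
    rw [h1] at hD
    obtain ⟨h2, h3⟩ := TableB_cons hD
    obtain ⟨h4, h5⟩ := TableB_append h3
    have h6 : Cov R (D 1) (m + m) r := cov_double R hR hr h h2
    have h7 : a.length ≤ Fintype.card T := hl a (List.mem_cons_self ..)
    have h8 : Fintype.card T ≤ r := by omega
    have h9 := TableB_inner (r := r) (s := r - Fintype.card T) hR a (m + m) (fun i => D (i + 1))
      (by omega) (TableB_mono (by omega) h6) h4
    have h10 := ih (fun b hb => hl b (List.mem_cons_of_mem _ hb)) _
      (fun i => D ((a.map fun t => some (R.opt t)).length + i + 1))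
      (by simpa using h9) h5
    have h11 : (opsOf R (a :: l)).length =
        (a.map fun t => some (R.opt t)).length + (opsOf R l).length + 1 := by
      rw [h1, List.length_cons, List.length_append]
    rw [h11]
    exact h10

/-- Soundness of tables for the rounds.  Proof: induction on `l` from the right
(`List.reverseRecOn`): `opsOf (l ++ [a]) = opsOf l ++ none :: a.map _`, `runM (l ++ [a]) = m + m +
count`.  After the doubling the radius is `r` (`cov_double`), and each of the at most `card T`
additions (`cov_add`, inner induction over the prefixes of `a`) costs one. -/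
theorem cov_run [AddCommMonoid F] [DecidableEq T] (R : RP T O Γ ((ι → ℤ) × F)) (hR : R.Small)
    {r : ℕ} (hr : rad T O Γ ≤ r) (l : List (List T)) (hl : ∀ a ∈ l, a.length ≤ Fintype.card T)
    (D : ℕ → Set ((ι → ℤ) × F)) (h0 : Base R r (D 0))
    (hD : ∀ i (h : i < (opsOf R l).length), Step r ((opsOf R l)[i]) (D i) (D (i + 1))) :
    Cov R (D (opsOf R l).length) (runM l) (r - Fintype.card T) := by
  unfold rad at hr
  exact TableB_outer hR (by omega) l hl 0 D
    (TableB_mono (by omega) (cov_base R hR (by omega) h0)) hD

end Pool.Agent.Lib.MP_bb9e9d_lc
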