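import Pool.Agent.Lib.MP_bb9e9d_lc.Core.TableDefs

/-! # Tables: the exact sets -/

namespace Pool.Agent.Lib.MP_bb9e9d_lc

variable {T O Γ ι F : Type} [Fintype T] [Fintype O] [Fintype Γ]

/-- Proof: induction on `ops`. -/
theorem exact_append [AddCommMonoid F] (X : Set ((ι → ℤ) × F))
    (ops ops' : List (Option (Set ((ι → ℤ) × F)))) :
    exact X (ops ++ ops') = exact (exact X ops) ops' := by
  induction ops generalizing X with
  | nil => rfl
  | cons op ops ih =>
    cases op with
    | none => exact ih _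
    | some A => exact ih _

/-- Proof: `exact_append` with `ops.take (i + 1) = ops.take i ++ [ops[i]]`. -/
theorem exact_step [AddCommMonoid F] (X : Set ((ι → ℤ) × F))
    (ops : List (Option (Set ((ι → ℤ) × F)))) (r : ℕ) {i : ℕ} (h : i < ops.length) :
    Step r ops[i] {u | u ∈ exact X (ops.take i) ∧ Bd r u}
      {u | u ∈ exact X (ops.take (i + 1)) ∧ Bd r u} := by
  have h1 : ops.take (i + 1) = ops.take i ++ [ops[i]] := by
    rw [List.take_append_getElem]
  rw [h1, exact_append]
  generalize exact X (ops.take i) = Y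
  generalize ops[i] = op
  cases op with
  | none =>
    intro u hu v hv hb
    exact ⟨⟨u, hu.1, v, hv.1, rfl⟩, hb⟩
  | some A =>
    intro u hu v hv hb
    exact ⟨⟨u, hu.1, v, hv, rfl⟩, hb⟩

/-- The exact first table.  Proof: `RP.zero_mem`, `RP.gval_mem` (the entries are at most `1 ≤ r`),
`RP.Reach.add` (`0 + 0 = 0`). -/
theorem exact_base [AddCommMonoid F] (R : RP T O Γ ((ι → ℤ) × F)) (hR : R.Small) {r : ℕ}
    (hr : 1 ≤ r) : Base R r {u | u ∈ R.Reach 0 ∧ Bd r u} := by
  classical
  refine ⟨⟨R.zero_mem, ?_⟩, ?_, ?_⟩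
  · intro i
    simp
  · intro γ hγ
    refine ⟨R.gval_mem hγ, fun i => ?_⟩
    exact (hR.gval γ i).trans (by exact_mod_cast hr)
  · intro u hu v hv hb
    refine ⟨?_, hb⟩
    have := RP.Reach.add hu.1 hv.1
    rwa [add_zero] at this

end Pool.Agent.Lib.MP_bb9e9d_lc
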