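import Pool.Agent.Lib.MP_bb9e9d_lc.Core.Split

/-!
# Tables

An operation is `none` (double the multiplicities) or `some A` (add one vector of the set `A`).
`Step r op D D'`: the set `D'` contains all results, with entries at most `r`, of the operation
applied to members of `D`.
-/

namespace Pool.Agent.Lib.MP_bb9e9d_lc

variable {T O Γ ι F : Type} [Fintype T] [Fintype O] [Fintype Γ]

/-- closure under an operation, within the box of radius `r` -/
def Step [AddCommMonoid F] (r : ℕ) (op : Option (Set ((ι → ℤ) × F)))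
    (D D' : Set ((ι → ℤ) × F)) : Prop :=
  match op with
  | none => ∀ u ∈ D, ∀ v ∈ D, Bd r (u + v) → u + v ∈ D'
  | some A => ∀ u ∈ D, ∀ v ∈ A, Bd r (u + v) → u + v ∈ D'

/-- closure of the first table -/
structure Base [AddCommMonoid F] (R : RP T O Γ ((ι → ℤ) × F)) (r : ℕ)
    (D : Set ((ι → ℤ) × F)) : Prop where
  zero : 0 ∈ D
  gen : ∀ γ, R.gok γ → R.gval γ ∈ D
  add : ∀ u ∈ D, ∀ v ∈ D, Bd r (u + v) → u + v ∈ D

/-- `D` contains all reachable vectors with entries at most `r`. -/
def Cov [AddCommMonoid F] (R : RP T O Γ ((ι → ℤ) × F)) (D : Set ((ι → ℤ) × F)) (m : T → ℕ)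
    (r : ℕ) : Prop :=
  ∀ u ∈ R.Reach m, Bd r u → u ∈ D

/-- the set of the contributions of one element of kind `t` -/
def RP.opt {V : Type} (R : RP T O Γ V) (t : T) : Set V := {v | ∃ o, R.ok t o ∧ v = R.val t o}

/-- the radius that is used -/
def rad (T O Γ : Type) [Fintype T] [Fintype O] [Fintype Γ] : ℕ :=
  2 * (cst T O Γ 0 + Fintype.card T) + 2 * (Fintype.card Γ * (Fintype.card Γ + 2))

/-- the multiplicities after the rounds: each round doubles, then adds the elements of a list -/
def runM [DecidableEq T] (l : List (List T)) : T → ℕ :=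
  l.foldl (fun m a => m + m + fun t => a.count t) 0

/-- the operations of the rounds -/
def opsOf {V : Type} (R : RP T O Γ V) (l : List (List T)) : List (Option (Set V)) :=
  l.flatMap fun a => none :: a.map fun t => some (R.opt t)

/-- The exact sets: all results of the operations, starting from `X`. -/
def exact [AddCommMonoid F] (X : Set ((ι → ℤ) × F)) : List (Option (Set ((ι → ℤ) × F))) →
    Set ((ι → ℤ) × F)
  | [] => X
  | none :: ops => exact {w | ∃ u ∈ X, ∃ v ∈ X, w = u + v} ops
  | some A :: ops => exact {w | ∃ u ∈ X, ∃ v ∈ A, w = u + v} ops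

end Pool.Agent.Lib.MP_bb9e9d_lc
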